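import Mathlib
import Pool.Agent.W492.BB.Defs

/-!
# Extension of the coefficients of a Weil cohomology theory on Chow groups: definition
-/

set_option autoImplicit false

open CategoryTheory AlgebraicGeometry TensorProduct

universe u v w

namespace Pool.Agent.Q303.CB

open Pool.Agent.H914 Pool.Agent.W492.BB

section

variable {K : Type w} [Field K] (L : Type v) [Field L] [Algebra K L] {A B : Type v} [Ring A]
  [Algebra K A] [Ring B] [Algebra K B]

/-- The extension of a subspace from `K` to `L`. -/
def subBase (p : Submodule K A) : Submodule L (L ⊗[K] A) := p.baseChange L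

/-- The extension of a homomorphism of algebras from `K` to `L`. -/
noncomputable def algBase (f : A →ₐ[K] B) : L ⊗[K] A →ₐ[L] L ⊗[K] B :=
  Algebra.TensorProduct.map (AlgHom.id L L) f

/-- The extension of a linear map from `K` to `L`. -/
noncomputable def linBase (f : A →ₗ[K] B) : L ⊗[K] A →ₗ[L] L ⊗[K] B := f.baseChange L

/-- The extension of a linear form from `K` to `L`. -/
noncomputable def trBase (f : A →ₗ[K] K) : L ⊗[K] A →ₗ[L] L :=
  (TensorProduct.AlgebraTensorModule.rid K L L).toLinearMap ∘ₗ f.baseChange L

/-- The composition of a homomorphism of rings with `a ↦ 1 ⊗ a`. -/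
noncomputable def clBase {R : Type v} [Ring R] (f : R →+* A) : R →+* L ⊗[K] A :=
  (Algebra.TensorProduct.includeRight : A →ₐ[K] L ⊗[K] A).toRingHom.comp f

end

variable {k : Type u} [Field k] {𝒱 : VarClass k} {K : Type w} [Field K]

/-- The extension of the coefficients of a theory `T` from the field `K` to the field `L`: the
groups are `L ⊗ T(X)`. -/
noncomputable def extTheory (T : TheoryData.{u, v, w} 𝒱 K) (L : Type v) [Field L] [Algebra K L] :
    TheoryData.{u, v, v} 𝒱 L where
  A X := L ⊗[K] T.A X
  gr X i := subBase L (T.gr X i)
  pull f := algBase L (T.pull f)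
  push f := linBase L (T.push f)

/-- The extension of the coefficients of a Weil cohomology theory `H` from the field `K` to the
field `L`: the groups are `L ⊗ H(X)`, and the class of a cycle is `1 ⊗ cl`. -/
noncomputable def ext {C : TheoryData.{u, v, 0} 𝒱 ℚ} (H : WeilTheoryData.{u, v, w} C K)
    (L : Type v) [Field L] [Algebra K L] : WeilTheoryData.{u, v, v} C L where
  toTheoryData := extTheory H.toTheoryData L
  tr X := trBase L (H.tr X)
  cl := clBase L H.cl

end Pool.Agent.Q303.CB
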