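import Mathlib
import Pool.Agent.H914R2.WBase2
import Pool.Agent.Q303.CB.Ext
import Pool.Agent.Y1.CT.CodimDefs

/-!
# Extension of the coefficients of a Weil cohomology theory on Chow groups
-/

set_option autoImplicit false

open CategoryTheory AlgebraicGeometry TensorProduct

universe u v w w'

namespace Pool.Agent.Q303.CB

open Pool.Agent.H914 Pool.Agent.H914.VarClass Pool.Agent.H914.VarClass.Obj
  Pool.Agent.W492.BB Pool.Agent.W484.CK Pool.Agent.Y1.CT

section alg

variable {K : Type*} [Field K] {A : Type*} [Ring A] [Algebra K A] {L : Type*} [Field L]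
  [Algebra K L]

/-- Extension of scalars of an internal grading, with any index set. -/
theorem isInternal_ext {ι : Type*} [DecidableEq ι] {V : Type*} [AddCommGroup V] [Module K V]
    {gr : ι → Submodule K V} (h : DirectSum.IsInternal gr) :
    DirectSum.IsInternal (fun i => (gr i).baseChange L) := by
  have hb : Function.Bijective (DirectSum.coeLinearMap gr) := h
  set e := (LinearEquiv.ofBijective (DirectSum.coeLinearMap gr) hb) with he
  let P : ι → (V →ₗ[K] V) := fun i =>
    (gr i).subtype ∘ₗ (DirectSum.component K ι (fun i => gr i) i) ∘ₗ e.symm.toLinearMap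
  have hsymm : ∀ i (a : V) (ha : a ∈ gr i),
      e.symm a = DirectSum.lof K ι (fun i => gr i) i ⟨a, ha⟩ := by
    intro i a ha
    rw [he, LinearEquiv.symm_apply_eq, LinearEquiv.ofBijective_apply,
      DirectSum.coeLinearMap_lof]
  have hsame : ∀ i, ∀ a ∈ gr i, P i a = a := by
    intro i a ha
    simp only [P, LinearMap.comp_apply, LinearEquiv.coe_coe]
    rw [hsymm i a ha, DirectSum.component.lof_self]
    rfl
  have hne : ∀ i j, j ≠ i → ∀ a ∈ gr j, P i a = 0 := by
    intro i j hij a ha
    simp only [P, LinearMap.comp_apply, LinearEquiv.coe_coe]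
    rw [hsymm j a ha, DirectSum.component.of, dif_neg hij]
    rfl
  have hP1 : ∀ i, ∀ x ∈ (gr i).baseChange L, (P i).baseChange L x = x := by
    intro i x hx
    rw [Submodule.baseChange_eq_span] at hx
    induction hx using Submodule.span_induction with
    | mem x hx =>
      obtain ⟨a, ha, rfl⟩ := hx
      rw [TensorProduct.mk_apply, LinearMap.baseChange_tmul, hsame i a ha]
    | zero => rw [map_zero]
    | add x y _ _ hx hy => rw [map_add, hx, hy]
    | smul c x _ hx => rw [map_smul, hx]
  have hP2 : ∀ i j, j ≠ i → ∀ x ∈ (gr j).baseChange L, (P i).baseChange L x = 0 := by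
    intro i j hij x hx
    rw [Submodule.baseChange_eq_span] at hx
    induction hx using Submodule.span_induction with
    | mem x hx =>
      obtain ⟨a, ha, rfl⟩ := hx
      rw [TensorProduct.mk_apply, LinearMap.baseChange_tmul, hne i j hij a ha, tmul_zero]
    | zero => rw [map_zero]
    | add x y _ _ hx hy => rw [map_add, hx, hy, add_zero]
    | smul c x _ hx => rw [map_smul, hx, smul_zero]
  rw [DirectSum.isInternal_submodule_iff_iSupIndep_and_iSup_eq_top]
  constructor
  · intro i
    rw [Submodule.disjoint_def]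
    intro x hx hx'
    have h2 : (⨆ j, ⨆ (_ : j ≠ i), (gr j).baseChange L) ≤
        LinearMap.ker ((P i).baseChange L) := by
      apply iSup_le
      intro j
      apply iSup_le
      intro hj x hx
      exact hP2 i j hj x hx
    rw [← hP1 i x hx]
    exact h2 hx'
  · rw [eq_top_iff]
    intro x _
    induction x using TensorProduct.induction_on with
    | zero => exact Submodule.zero_mem _
    | add x y hx hy => exact Submodule.add_mem _ (hx trivial) (hy trivial)
    | tmul l a =>
      have ha : a ∈ iSup gr := by rw [h.submodule_iSup_eq_top]; trivial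
      refine Submodule.iSup_induction gr
        (motive := fun a => (l ⊗ₜ[K] a : L ⊗[K] V) ∈ ⨆ i, (gr i).baseChange L) ha ?_ ?_ ?_
      · intro i a ha
        exact Submodule.mem_iSup_of_mem i (Submodule.tmul_mem_baseChange_of_mem l ha)
      · rw [tmul_zero]; exact Submodule.zero_mem _
      · intro a b ha hb
        rw [tmul_add]
        exact Submodule.add_mem _ ha hb

/-- The application of a linear form on the extension. -/
noncomputable def coord (φ : L →ₗ[K] K) {V : Type*} [AddCommGroup V] [Module K V] :
    L ⊗[K] V →ₗ[K] V :=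
  (TensorProduct.lid K V).toLinearMap ∘ₗ φ.rTensor V

theorem coord_tmul (φ : L →ₗ[K] K) {V : Type*} [AddCommGroup V] [Module K V] (l : L) (a : V) :
    coord φ (l ⊗ₜ[K] a) = φ l • a := by
  rw [coord, LinearMap.comp_apply, LinearMap.rTensor_tmul, LinearEquiv.coe_coe,
    TensorProduct.lid_tmul]

/-- An element all of whose coordinates vanish is zero. -/
theorem eq_zero_of_coord {V : Type*} [AddCommGroup V] [Module K V] (x : L ⊗[K] V)
    (h : ∀ φ : L →ₗ[K] K, coord φ x = 0) : x = 0 := by
  classical
  let b := Module.Basis.ofVectorSpace K L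
  let e := TensorProduct.equivFinsuppOfBasisLeft (N := V) b
  apply e.injective
  rw [map_zero]
  ext i
  have h1 : ∀ y : L ⊗[K] V, e y i = coord (b.coord i) y := by
    intro y
    induction y using TensorProduct.induction_on with
    | zero => simp
    | add x y hx hy => rw [map_add, Finsupp.add_apply, hx, hy, map_add]
    | tmul l a =>
      rw [TensorProduct.equivFinsuppOfBasisLeft_apply_tmul_apply, coord_tmul]
      rfl
  rw [h1, h]
  rfl

theorem nondeg_ext {tr : A →ₗ[K] K} (h : ∀ a, (∀ b, tr (a * b) = 0) → a = 0)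
    (x : L ⊗[K] A) (hx : ∀ y, formBase L tr (x * y) = 0) : x = 0 := by
  refine eq_zero_of_coord x fun φ => h _ fun b => ?_
  have h1 : ∀ x : L ⊗[K] A, tr (coord φ x * b) = φ (formBase L tr (x * ((1 : L) ⊗ₜ[K] b))) := by
    intro x
    induction x using TensorProduct.induction_on with
    | zero => simp
    | add x y hx hy => rw [map_add, add_mul, map_add, hx, hy, add_mul, map_add, map_add]
    | tmul l a =>
      rw [coord_tmul, Algebra.TensorProduct.tmul_mul_tmul, formBase_tmul, mul_one, smul_mul_assoc,
        map_smul, smul_eq_mul, mul_comm l, ← Algebra.smul_def, map_smul, smul_eq_mul, mul_comm]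
  rw [h1, hx, map_zero]

/-- A vector whose extension lies in the extension of a subspace lies in the subspace. -/
theorem mem_of_ext {V : Type*} [AddCommGroup V] [Module K V] (p : Submodule K V) {a : V}
    (h : (1 : L) ⊗ₜ[K] a ∈ p.baseChange L) : a ∈ p := by
  obtain ⟨φ, hφ⟩ : ∃ φ : L →ₗ[K] K, φ 1 = 1 := by
    obtain ⟨φ, hφ⟩ := LinearMap.exists_leftInverse_of_injective (Algebra.linearMap K L)
      (LinearMap.ker_eq_bot.2 (algebraMap K L).injective)
    refine ⟨φ, ?_⟩
    have h2 := LinearMap.congr_fun hφ 1
    simpa using h2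
  have h1 : ∀ x ∈ p.baseChange L, coord φ x ∈ p := by
    intro x hx
    rw [Submodule.baseChange_eq_span] at hx
    have key : ∀ x ∈ Submodule.span L ((p.map (TensorProduct.mk K L V 1) : Submodule K _) :
        Set _), ∀ l : L, coord φ (l • x) ∈ p := by
      intro x hx
      induction hx using Submodule.span_induction with
      | mem x hx =>
        intro l
        obtain ⟨a, ha, rfl⟩ := hx
        rw [TensorProduct.mk_apply, TensorProduct.smul_tmul', coord_tmul]
        exact p.smul_mem _ ha
      | zero => intro l; rw [smul_zero, map_zero]; exact p.zero_mem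
      | add x y _ _ hx hy => intro l; rw [smul_add, map_add]; exact p.add_mem (hx l) (hy l)
      | smul c x _ hx => intro l; rw [smul_smul]; exact hx _
    have := key x hx 1
    rwa [one_smul] at this
  have h2 := h1 _ h
  rwa [coord_tmul, hφ, one_smul] at h2

/-- The kernel of the extension of a linear map is the extension of the kernel. -/
theorem mem_ker_ext {V W : Type*} [AddCommGroup V] [Module K V] [AddCommGroup W] [Module K W]
    (f : V →ₗ[K] W) {x : L ⊗[K] V} (hx : f.baseChange L x = 0) :
    x ∈ (LinearMap.ker f).baseChange L := by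
  classical
  -- write `x` in the basis of `L`
  let b := Module.Basis.ofVectorSpace K L
  let e := TensorProduct.equivFinsuppOfBasisLeft (N := V) b
  have h1 : x = ∑ i ∈ (e x).support, b i ⊗ₜ[K] (e x) i := by
    have h2 : e.symm (e x) = x := e.symm_apply_apply x
    rw [TensorProduct.equivFinsuppOfBasisLeft_symm_apply] at h2
    conv_lhs => rw [← h2]
    rfl
  have h3 : ∀ i, f (e x i) = 0 := by
    intro i
    let e' := TensorProduct.equivFinsuppOfBasisLeft (N := W) b
    have h4 : ∀ y : L ⊗[K] V, e' (f.baseChange L y) i = f (e y i) := by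
      intro y
      induction y using TensorProduct.induction_on with
      | zero => simp
      | add x y hx hy => rw [map_add, map_add, Finsupp.add_apply, hx, hy, map_add,
          Finsupp.add_apply, map_add]
      | tmul l a =>
        rw [LinearMap.baseChange_tmul, TensorProduct.equivFinsuppOfBasisLeft_apply_tmul_apply,
          TensorProduct.equivFinsuppOfBasisLeft_apply_tmul_apply, map_smul]
    rw [← h4, hx, map_zero]
    rfl
  rw [h1]
  exact Submodule.sum_mem _ fun i _ => Submodule.tmul_mem_baseChange_of_mem _ (h3 i)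

end alg

section theory

variable {k : Type u} [Field k] {𝒱 : VarClass k}

section general

variable {F : Type w} [Field F] (T : TheoryData.{u, v, w} 𝒱 F) {X Y : 𝒱.Obj}

theorem up_zero (f : X ⟶ Y) : T.up f 0 = 0 := map_zero _

theorem up_add (f : X ⟶ Y) (a b : T.A Y) : T.up f (a + b) = T.up f a + T.up f b := map_add _ _ _

theorem down_zero (f : X ⟶ Y) : T.down f 0 = 0 := map_zero _

theorem down_add (f : X ⟶ Y) (a b : T.A X) : T.down f (a + b) = T.down f a + T.down f b :=
  map_add _ _ _

theorem mul_z (a : T.A X) : T.mul a 0 = 0 := mul_zero _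

theorem z_mul (a : T.A X) : T.mul 0 a = 0 := zero_mul _

theorem mul_a (a b c : T.A X) : T.mul a (b + c) = T.mul a b + T.mul a c := mul_add _ _ _

theorem a_mul (a b c : T.A X) : T.mul (a + b) c = T.mul a c + T.mul b c := add_mul _ _ _

end general

variable {C : TheoryData.{u, v, 0} 𝒱 ℚ} {K : Type w} [Field K]

variable {H : WeilTheoryData.{u, v, w} C K} {L : Type v} [Field L] [Algebra K L] {X Y Z : 𝒱.Obj}

/-- The element `l ⊗ a`. -/
noncomputable def tm (H : WeilTheoryData.{u, v, w} C K) {L : Type v} [Field L] [Algebra K L]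
    {X : 𝒱.Obj} (l : L) (a : H.A X) : (ext H L).A X :=
  (l ⊗ₜ[K] a : L ⊗[K] H.A X)

theorem tm_up (f : X ⟶ Y) (l : L) (b : H.A Y) :
    (ext H L).up f (tm H l b) = tm H l (H.up f b) := by
  change mapBase L (H.pull f) (l ⊗ₜ[K] b) = _
  rw [Algebra.TensorProduct.map_tmul]
  rfl

theorem tm_down (f : X ⟶ Y) (l : L) (b : H.A X) :
    (ext H L).down f (tm H l b) = tm H l (H.down f b) := by
  change (H.push f).baseChange L (l ⊗ₜ[K] b) = _
  rw [LinearMap.baseChange_tmul]
  rfl

theorem tm_mul (l m : L) (a b : H.A X) :
    (ext H L).mul (tm H l a) (tm H m b) = tm H (l * m) (H.mul a b) :=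
  Algebra.TensorProduct.tmul_mul_tmul _ _ _ _

theorem tm_cl (z : C.A X) : (ext H L).cl z = tm H (1 : L) (H.cl z) := rfl

theorem tm_tr (l : L) (a : H.A X) :
    (ext H L).tr X (tm H l a) = l * algebraMap K L (H.tr X a) :=
  formBase_tmul _ _ _

theorem tm_zero (l : L) : tm H l (0 : H.A X) = 0 := tmul_zero _ _

theorem tm_add (l : L) (a b : H.A X) : tm H l (a + b) = tm H l a + tm H l b := tmul_add _ _ _

theorem smul_tm (c l : L) (a : H.A X) : c • tm H l a = tm H (c * l) a :=
  TensorProduct.smul_tmul' _ _ _

theorem tm_smul (l : L) (c : K) (a : H.A X) :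
    tm H l (c • a) = algebraMap K L c • tm H l a := by
  rw [smul_tm]
  change l ⊗ₜ[K] (c • a) = _
  rw [← TensorProduct.smul_tmul, Algebra.smul_def]
  rfl

theorem tm_deg {i : ℤ} (l : L) {a : H.A X} (ha : H.Deg i a) : (ext H L).Deg i (tm H l a) :=
  Submodule.tmul_mem_baseChange_of_mem l ha

/-- Induction for the elements of the extension. -/
theorem ext_induction {P : (ext H L).A X → Prop} (h0 : P 0)
    (hadd : ∀ x y, P x → P y → P (x + y)) (h : ∀ (l : L) (a : H.A X), P (tm H l a))
    (x : (ext H L).A X) : P x :=
  tmul_induction (P := P) h0 hadd h x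

/-- Induction for the elements of the extension of a given degree. -/
theorem ext_deg_induction {i : ℤ} {P : (ext H L).A X → Prop} (h0 : P 0)
    (hadd : ∀ x y, P x → P y → P (x + y))
    (h : ∀ (l : L) (a : H.A X), H.Deg i a → P (tm H l a))
    {x : (ext H L).A X} (hx : (ext H L).Deg i x) : P x :=
  base_induction (P := P) h0 hadd (fun l a ha => h l a ha) hx

theorem ext_isGradedRing (h : H.IsGradedRing) : (ext H L).IsGradedRing where
  isInternal X := isInternal_ext (h.isInternal X)
  gr_neg X i hi := by
    change (H.gr X i).baseChange L = ⊥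
    rw [h.gr_neg X i hi, Submodule.baseChange_bot]
  one_mem X := Submodule.tmul_mem_baseChange_of_mem (1 : L) (h.one_mem X)
  mul_mem := by
    intro X i j x y hx hy
    refine ext_deg_induction (P := fun x => (ext H L).Deg (i + j) ((ext H L).mul x y))
      ?_ ?_ ?_ hx
    · rw [z_mul]; exact Submodule.zero_mem _
    · intro x x' hx hx'
      rw [a_mul]; exact Submodule.add_mem _ hx hx'
    · intro l a ha
      refine ext_deg_induction (P := fun y => (ext H L).Deg (i + j)
        ((ext H L).mul (tm H l a) y)) ?_ ?_ ?_ hy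
      · rw [mul_z]; exact Submodule.zero_mem _
      · intro x x' hx hx'
        rw [mul_a]; exact Submodule.add_mem _ hx hx'
      · intro m b hb
        rw [tm_mul]
        exact tm_deg _ (h.mul_mem ha hb)

theorem ext_hasDegrees {δ : ℤ} (h : H.HasDegrees δ) : (ext H L).HasDegrees δ where
  pull_mem := by
    intro X Y f i b hb
    refine ext_deg_induction (P := fun b => (ext H L).Deg i ((ext H L).up f b)) ?_ ?_ ?_ hb
    · rw [up_zero]; exact Submodule.zero_mem _
    · intro x y hx hy; rw [up_add]; exact Submodule.add_mem _ hx hy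
    · intro l b hb
      rw [tm_up]
      exact tm_deg _ (h.pull_mem f hb)
  push_mem := by
    intro X Y f i b hb
    refine ext_deg_induction (P := fun b => (ext H L).Deg (i + δ * (Y.dim - X.dim))
      ((ext H L).down f b)) ?_ ?_ ?_ hb
    · rw [down_zero]; exact Submodule.zero_mem _
    · intro x y hx hy; rw [down_add]; exact Submodule.add_mem _ hx hy
    · intro l b hb
      rw [tm_down]
      exact tm_deg _ (h.push_mem f hb)

theorem ext_isFunctor (h : H.IsFunctor) : (ext H L).IsFunctor where
  pull_id := by
    intro X a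
    refine ext_induction (P := fun a => (ext H L).up (𝟙 X) a = a) (up_zero _ _) ?_ ?_ a
    · intro x y hx hy; rw [up_add, hx, hy]
    · intro l a; rw [tm_up, h.pull_id]
  pull_comp := by
    intro X Y Z f g a
    refine ext_induction (P := fun a => (ext H L).up (f ≫ g) a =
      (ext H L).up f ((ext H L).up g a)) ?_ ?_ ?_ a
    · rw [up_zero, up_zero, up_zero]
    · intro x y hx hy; rw [up_add, up_add, up_add, hx, hy]
    · intro l a; rw [tm_up, tm_up, tm_up, h.pull_comp]
  push_id := by
    intro X a
    refine ext_induction (P := fun a => (ext H L).down (𝟙 X) a = a) (down_zero _ _) ?_ ?_ a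
    · intro x y hx hy; rw [down_add, hx, hy]
    · intro l a; rw [tm_down, h.push_id]
  push_comp := by
    intro X Y Z f g a
    refine ext_induction (P := fun a => (ext H L).down (f ≫ g) a =
      (ext H L).down g ((ext H L).down f a)) ?_ ?_ ?_ a
    · rw [down_zero, down_zero, down_zero]
    · intro x y hx hy; rw [down_add, down_add, down_add, hx, hy]
    · intro l a; rw [tm_down, tm_down, tm_down, h.push_comp]

theorem ext_proj (h : H.HasProjectionFormula) : (ext H L).HasProjectionFormula where
  proj_right := by
    intro X Y f a b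
    refine ext_induction (P := fun a => (ext H L).down f ((ext H L).mul a ((ext H L).up f b)) =
      (ext H L).mul ((ext H L).down f a) b) ?_ ?_ ?_ a
    · rw [z_mul, down_zero, z_mul]
    · intro x y hx hy
      rw [a_mul, down_add, hx, hy, down_add, a_mul]
    · intro l a
      refine ext_induction (P := fun b => (ext H L).down f ((ext H L).mul
        (tm H l a) ((ext H L).up f b)) = (ext H L).mul
          ((ext H L).down f (tm H l a)) b) ?_ ?_ ?_ b
      · rw [up_zero, mul_z, down_zero, mul_z]
      · intro x y hx hy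
        rw [up_add, mul_a, down_add, hx, hy, mul_a]
      · intro m b
        rw [tm_up, tm_mul, tm_down, tm_down, tm_mul, h.proj_right]
  proj_left := by
    intro X Y f a b
    refine ext_induction (P := fun a => (ext H L).down f ((ext H L).mul ((ext H L).up f b) a) =
      (ext H L).mul b ((ext H L).down f a)) ?_ ?_ ?_ a
    · rw [mul_z, down_zero, mul_z]
    · intro x y hx hy
      rw [mul_a, down_add, hx, hy, down_add, mul_a]
    · intro l a
      refine ext_induction (P := fun b => (ext H L).down f ((ext H L).mul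
        ((ext H L).up f b) (tm H l a)) = (ext H L).mul b
          ((ext H L).down f (tm H l a))) ?_ ?_ ?_ b
      · rw [up_zero, z_mul, down_zero, z_mul]
      · intro x y hx hy
        rw [up_add, a_mul, down_add, hx, hy, a_mul]
      · intro m b
        rw [tm_up, tm_mul, tm_down, tm_down, tm_mul, h.proj_left]

theorem ext_baseChange (h : H.HasBaseChange) : (ext H L).HasBaseChange where
  base_fst := by
    intro X Y f Z a
    refine ext_induction (P := fun a => (ext H L).up (fst Y Z) ((ext H L).down f a) =
      (ext H L).down (prodMap f (𝟙 Z)) ((ext H L).up (fst X Z) a)) ?_ ?_ ?_ a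
    · rw [down_zero, up_zero, up_zero, down_zero]
    · intro x y hx hy; rw [down_add, up_add, up_add, down_add, hx, hy]
    · intro l a; rw [tm_down, tm_up, tm_up, tm_down, h.base_fst]
  base_snd := by
    intro X Y f Z a
    refine ext_induction (P := fun a => (ext H L).up (snd Z Y) ((ext H L).down f a) =
      (ext H L).down (prodMap (𝟙 Z) f) ((ext H L).up (snd Z X) a)) ?_ ?_ ?_ a
    · rw [down_zero, up_zero, up_zero, down_zero]
    · intro x y hx hy; rw [down_add, up_add, up_add, down_add, hx, hy]
    · intro l a; rw [tm_down, tm_up, tm_up, tm_down, h.base_snd]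

theorem ext_isOriented (h : H.IsOriented) : (ext H L).IsOriented where
  tr_push := by
    intro X Y f a
    refine ext_induction (P := fun a => (ext H L).tr Y ((ext H L).down f a) =
      (ext H L).tr X a) ?_ ?_ ?_ a
    · rw [down_zero, map_zero, map_zero]
    · intro x y hx hy; rw [down_add, map_add, map_add, hx, hy]
    · intro l a; rw [tm_down, tm_tr, tm_tr, h.tr_push]
  nondeg := fun a ha => nondeg_ext h.nondeg a ha

theorem ext_kunneth (h : H.KunnethFormula) : (ext H L).KunnethFormula := by
  intro X Y m x hx
  refine ext_deg_induction (P := fun x => x ∈ Submodule.span L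
    {c | ∃ (l : ℤ) (a : (ext H L).A X) (b : (ext H L).A Y), (ext H L).Deg l a ∧
      (ext H L).Deg (m - l) b ∧ c = (ext H L).mul ((ext H L).up (fst X Y) a)
        ((ext H L).up (snd X Y) b)}) (Submodule.zero_mem _)
    (fun x y hx hy => Submodule.add_mem _ hx hy) ?_ hx
  intro l a ha
  have h1 := h X Y m ha
  have h2 : ∀ a ∈ Submodule.span K {c | ∃ (l : ℤ) (a : H.A X) (b : H.A Y), H.Deg l a ∧
      H.Deg (m - l) b ∧ c = H.mul (H.up (fst X Y) a) (H.up (snd X Y) b)}, ∀ l : L,
      tm H l a ∈ Submodule.span L
    {c | ∃ (l : ℤ) (a : (ext H L).A X) (b : (ext H L).A Y), (ext H L).Deg l a ∧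
      (ext H L).Deg (m - l) b ∧ c = (ext H L).mul ((ext H L).up (fst X Y) a)
        ((ext H L).up (snd X Y) b)} := by
    intro a ha
    induction ha using Submodule.span_induction with
    | mem x hx =>
      intro l
      obtain ⟨i, a, b, ha, hb, rfl⟩ := hx
      refine Submodule.subset_span ⟨i, tm H l a, tm H (1 : L) b, tm_deg _ ha, tm_deg _ hb, ?_⟩
      rw [tm_up, tm_up, tm_mul, mul_one]
    | zero => intro l; rw [tm_zero]; exact Submodule.zero_mem _
    | add x y _ _ hx hy => intro l; rw [tm_add]; exact Submodule.add_mem _ (hx l) (hy l)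
    | smul c x _ hx =>
      intro l
      rw [tm_smul]
      exact Submodule.smul_mem _ _ (hx _)
  exact h2 a h1 l

theorem ext_isClassMap (h : H.IsClassMap) : (ext H L).IsClassMap where
  cl_mem hz := tm_deg (1 : L) (h.cl_mem hz)
  cl_pull := by
    intro X Y f z
    rw [tm_cl, tm_cl, tm_up, h.cl_pull]
  cl_push := by
    intro X Y f z
    rw [tm_cl, tm_cl, tm_down, h.cl_push]
  cl_central := by
    intro X z a
    refine ext_induction (P := fun a => (ext H L).mul ((ext H L).cl z) a =
      (ext H L).mul a ((ext H L).cl z)) ?_ ?_ ?_ a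
    · rw [mul_z, z_mul]
    · intro x y hx hy
      rw [mul_a, a_mul, hx, hy]
    · intro l a
      rw [tm_cl, tm_mul, tm_mul, h.cl_central, mul_comm]

/-- **The extension of the coefficients of a Weil cohomology theory is a Weil cohomology
theory.** -/
instance ext_isWeil [h : IsWeil H] : IsWeil (ext H L) where
  isTheory :=
    { isGradedRing := ext_isGradedRing h.isTheory.isGradedRing
      hasDegrees := ext_hasDegrees h.isTheory.hasDegrees
      isFunctor := ext_isFunctor h.isTheory.isFunctor
      hasProjectionFormula := ext_proj h.isTheory.hasProjectionFormula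
      hasBaseChange := ext_baseChange h.isTheory.hasBaseChange }
  isOriented := ext_isOriented h.isOriented
  kunnethFormula := ext_kunneth h.kunnethFormula
  isClassMap := ext_isClassMap h.isClassMap

/-- The span of the classes of cycles, extended. -/
theorem mem_span_ext (c : ℕ) (w : (ext H L).A Z) :
    InSpan (ext H L) (IsCycleClass (ext H L) c) w ↔
      (w : L ⊗[K] H.A Z) ∈ (Submodule.span K {a | IsCycleClass H c a}).baseChange L := by
  have h1 : (Submodule.span L {a : L ⊗[K] H.A Z | IsCycleClass (ext H L) (Z := Z) c a}) =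
      (Submodule.span K {a | IsCycleClass H c a}).baseChange L := by
    rw [Submodule.baseChange_span]
    congr 1
    ext x
    constructor
    · rintro ⟨z, hz, hx⟩
      exact ⟨H.cl z, ⟨z, hz, rfl⟩, hx.symm⟩
    · rintro ⟨a, ⟨z, hz, rfl⟩, rfl⟩
      exact ⟨z, hz, rfl⟩
  rw [← h1]
  rfl

/-- The Frobenius operator minus a power of `Q`. -/
noncomputable def frobSub (H : WeilTheoryData.{u, v, w} C K) (π : Z ⟶ Z) (Q c : ℕ) :
    H.A Z →ₗ[K] H.A Z :=
  (H.pull π).toLinearMap - (Q : K) ^ c • LinearMap.id

/-- The iterates of the extended operator. -/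
noncomputable def frobExt (H : WeilTheoryData.{u, v, w} C K) (L : Type v) [Field L] [Algebra K L]
    (π : Z ⟶ Z) (Q c m : ℕ) : L ⊗[K] H.A Z →ₗ[L] L ⊗[K] H.A Z :=
  ((frobSub H π Q c) ^ m).baseChange L

theorem iterate_frobSub (π : Z ⟶ Z) (Q c m : ℕ) (w : H.A Z) :
    (fun v => H.up π v - (Q : K) ^ c • v)^[m] w = ((frobSub H π Q c) ^ m) w := by
  rw [Module.End.pow_apply]
  rfl

theorem one_step (π : Z ⟶ Z) (Q c : ℕ) (x : (ext H L).A Z) :
    (ext H L).up π x - (Q : L) ^ c • x = (frobExt H L π Q c 1 x : L ⊗[K] H.A Z) := by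
  refine ext_induction (P := fun x : (ext H L).A Z => (ext H L).up π x - (Q : L) ^ c • x =
    (frobExt H L π Q c 1 x : L ⊗[K] H.A Z)) ?_ ?_ ?_ x
  · rw [up_zero, smul_zero, sub_zero]
    exact (map_zero (frobExt H L π Q c 1)).symm
  · intro x y hx hy
    rw [up_add, smul_add]
    have h1 : (ext H L).up π x + (ext H L).up π y - ((Q : L) ^ c • x + (Q : L) ^ c • y) =
      ((ext H L).up π x - (Q : L) ^ c • x) + ((ext H L).up π y - (Q : L) ^ c • y) := by abel
    rw [h1, hx, hy]
    exact (map_add (frobExt H L π Q c 1) _ _).symm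
  · intro l a
    rw [tm_up]
    have h1 : (frobExt H L π Q c 1 (l ⊗ₜ[K] a) : L ⊗[K] H.A Z) =
        l ⊗ₜ[K] (H.up π a - (Q : K) ^ c • a) := by
      rw [frobExt, LinearMap.baseChange_tmul, pow_one]
      rfl
    have h2 : (l ⊗ₜ[K] (H.up π a - (Q : K) ^ c • a) : L ⊗[K] H.A Z) =
        l ⊗ₜ[K] (H.up π a) - (Q : L) ^ c • (l ⊗ₜ[K] a) := by
      rw [tmul_sub, ← TensorProduct.smul_tmul, Algebra.smul_def, map_pow, map_natCast,
        TensorProduct.smul_tmul', smul_eq_mul]
    exact (h1.trans h2).symm

theorem iterate_ext (π : Z ⟶ Z) (Q c m : ℕ) (x : (ext H L).A Z) :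
    (fun v => (ext H L).up π v - (Q : L) ^ c • v)^[m] x =
      (frobExt H L π Q c m x : L ⊗[K] H.A Z) := by
  induction m generalizing x with
  | zero =>
    rw [Function.iterate_zero_apply]
    have h1 : frobExt H L π Q c 0 = LinearMap.id := by
      rw [frobExt, pow_zero]
      exact LinearMap.baseChange_id
    exact (LinearMap.congr_fun h1 x).symm
  | succ m ih =>
    rw [Function.iterate_succ_apply, ih, one_step]
    have h1 : frobExt H L π Q c (m + 1) = frobExt H L π Q c m ∘ₗ frobExt H L π Q c 1 := by
      rw [frobExt, frobExt, frobExt, ← LinearMap.baseChange_comp, pow_succ, pow_one]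
      rfl
    exact (LinearMap.congr_fun h1 x).symm

theorem general_ext (π : Z ⟶ Z) (Q c m : ℕ) :
    (∀ w : H.A Z, H.Deg (2 * c) w → ((frobSub H π Q c) ^ m) w = 0 →
      InSpan H (IsCycleClass H c) w) ↔
    (∀ w : (ext H L).A Z, (ext H L).Deg (2 * c) w →
      (frobExt H L π Q c m w : L ⊗[K] H.A Z) = 0 →
        InSpan (ext H L) (IsCycleClass (ext H L) c) w) := by
  constructor
  · intro h w hw hw'
    rw [mem_span_ext]
    -- restrict to the graded piece
    have h1 : (w : L ⊗[K] H.A Z) ∈
        (LinearMap.ker ((frobSub H π Q c) ^ m) ⊓ H.gr Z (2 * c)).baseChange L := by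
      let f : H.A Z →ₗ[K] H.A Z × (H.A Z ⧸ H.gr Z (2 * c)) :=
        ((frobSub H π Q c) ^ m).prod (H.gr Z (2 * c)).mkQ
      have h2 : LinearMap.ker ((frobSub H π Q c) ^ m) ⊓ H.gr Z (2 * c) = LinearMap.ker f := by
        rw [LinearMap.ker_prod, Submodule.ker_mkQ]
      rw [h2]
      apply mem_ker_ext
      have h3 : ∀ x : L ⊗[K] H.A Z, ((frobSub H π Q c) ^ m).baseChange L x = 0 →
          (H.gr Z (2 * c)).mkQ.baseChange L x = 0 → f.baseChange L x = 0 := by
        intro x h4 h5
        have h6 : f = (LinearMap.inl K _ _) ∘ₗ ((frobSub H π Q c) ^ m) +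
            (LinearMap.inr K _ _) ∘ₗ (H.gr Z (2 * c)).mkQ := by
          ext x <;> simp [f]
        rw [h6, LinearMap.baseChange_add, LinearMap.baseChange_comp, LinearMap.baseChange_comp,
          LinearMap.add_apply, LinearMap.comp_apply, LinearMap.comp_apply, h4, h5, map_zero,
          map_zero, add_zero]
      apply h3
      · exact hw'
      · refine base_induction (P := fun x => (H.gr Z (2 * c)).mkQ.baseChange L x = 0)
          (map_zero _) ?_ ?_ hw
        · intro x y hx hy; rw [map_add, hx, hy, add_zero]
        · intro l a ha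
          rw [LinearMap.baseChange_tmul, Submodule.mkQ_apply,
            (Submodule.Quotient.mk_eq_zero _).2 ha, tmul_zero]
    refine base_induction (P := fun x => x ∈
      (Submodule.span K {a | IsCycleClass H c a}).baseChange L) (Submodule.zero_mem _)
      (fun x y hx hy => Submodule.add_mem _ hx hy) ?_ h1
    intro l a ha
    exact Submodule.tmul_mem_baseChange_of_mem _ (h a ha.2 ha.1)
  · intro h w hw hw'
    have h0 : (frobExt H L π Q c m ((1 : L) ⊗ₜ[K] w) : L ⊗[K] H.A Z) = 0 := by
      rw [frobExt, LinearMap.baseChange_tmul, hw', tmul_zero]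
    have h1 := h (tm H (1 : L) w) (tm_deg _ hw) h0
    rw [mem_span_ext] at h1
    exact mem_of_ext _ h1

/-- The Tate conjecture does not depend on the coefficients. -/
theorem tateIn_ext (π : Z ⟶ Z) (Q c : ℕ) : TateIn (ext H L) π Q c ↔ TateIn H π Q c := by
  have h1 : ∀ (w : H.A Z), ((frobSub H π Q c) ^ 1) w = 0 ↔ H.up π w = (Q : K) ^ c • w := by
    intro w
    rw [pow_one]
    exact sub_eq_zero
  have h2 : ∀ (w : (ext H L).A Z), (frobExt H L π Q c 1 w : L ⊗[K] H.A Z) = 0 ↔
      (ext H L).up π w = (Q : L) ^ c • w := by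
    intro w
    have h3 := one_step (H := H) (L := L) π Q c w
    constructor
    · intro h4
      exact sub_eq_zero.1 (h3.trans h4)
    · intro h4
      exact h3.symm.trans (sub_eq_zero.2 h4)
  constructor
  · intro h w hw hw'
    exact (general_ext (H := H) (L := L) π Q c 1).2 (fun w hw hw' => h w hw ((h2 w).1 hw')) w hw
      ((h1 w).2 hw')
  · intro h w hw hw'
    exact (general_ext (H := H) (L := L) π Q c 1).1 (fun w hw hw' => h w hw ((h1 w).1 hw')) w hw
      ((h2 w).2 hw')

/-- The Tate conjecture with semisimplicity does not depend on the coefficients. -/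
theorem strongTateIn_ext (π : Z ⟶ Z) (Q c : ℕ) :
    StrongTateIn (ext H L) π Q c ↔ StrongTateIn H π Q c := by
  constructor
  · intro h m w hw hw'
    rw [iterate_frobSub] at hw'
    refine (general_ext (H := H) (L := L) π Q c m).2 (fun w hw hw' => ?_) w hw hw'
    exact h m w hw ((iterate_ext π Q c m w).trans hw')
  · intro h m w hw hw'
    refine (general_ext (H := H) (L := L) π Q c m).1 (fun w hw hw' => ?_) w hw
      ((iterate_ext π Q c m w).symm.trans hw')
    refine h m w hw ?_
    rw [iterate_frobSub]
    exact hw'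

end theory

end Pool.Agent.Q303.CB
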