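import Mathlib

/-!
# The map given by a form of a vector space
-/

set_option autoImplicit false

open TensorProduct

namespace Pool.Agent.Q303.CB

/-- The map `K ⊗ H₀ → V`, `l ⊗ a ↦ l a`, for a subspace `H₀` of `V` over a subfield `K₀` of `K`. -/
noncomputable def formMap {K₀ V : Type*} (K : Type*) [Field K₀] [Field K] [Algebra K₀ K]
    [AddCommGroup V] [Module K V] [Module K₀ V] [IsScalarTower K₀ K V] (H₀ : Submodule K₀ V) :
    K ⊗[K₀] H₀ →ₗ[K] V :=
  LinearMap.liftBaseChange K H₀.subtype

end Pool.Agent.Q303.CB
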