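import Mathlib
import Pool.Agent.Q303.CB.Base
import Pool.Agent.Q303.CB.FormMap

/-!
# Vector spaces with a form over a subfield
-/

set_option autoImplicit false

open TensorProduct

namespace Pool.Agent.Q303.CB

section alg

variable {K : Type*} [Field K] {V : Type*} [AddCommGroup V] [Module K V] {L : Type*} [Field L]
  [Algebra K L]

/-- Induction for the elements of an extended subspace. -/
theorem sub_induction' {p : Submodule K V} {P : L ⊗[K] V → Prop} (h0 : P 0)
    (hadd : ∀ x y, P x → P y → P (x + y)) (h : ∀ (l : L), ∀ a ∈ p, P (l ⊗ₜ a))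
    {x : L ⊗[K] V} (hx : x ∈ p.baseChange L) : P x := by
  rw [Submodule.baseChange_eq_span] at hx
  have key : ∀ x ∈ Submodule.span L ((p.map (TensorProduct.mk K L V 1) : Submodule K _) : Set _),
      ∀ l : L, P (l • x) := by
    intro x hx
    induction hx using Submodule.span_induction with
    | mem x hx =>
      intro l
      obtain ⟨a, ha, rfl⟩ := hx
      rw [TensorProduct.mk_apply, TensorProduct.smul_tmul', smul_eq_mul, mul_one]
      exact h l a ha
    | zero => intro l; rw [smul_zero]; exact h0
    | add x y _ _ hx hy => intro l; rw [smul_add]; exact hadd _ _ (hx l) (hy l)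
    | smul c x _ hx => intro l; rw [smul_smul]; exact hx _
  have := key x hx 1
  rwa [one_smul] at this

/-- An element of the extension of `p` killed by the extension of `f` lies in the extension of the
intersection of `p` with the kernel of `f`. -/
theorem mem_inf_ext' {U : Type*} [AddCommGroup U] [Module K U] (f : V →ₗ[K] U) (p : Submodule K V)
    {w : L ⊗[K] V} (hw : w ∈ p.baseChange L) (hf : f.baseChange L w = 0) :
    w ∈ (LinearMap.ker f ⊓ p).baseChange L := by
  let g : V →ₗ[K] U × (V ⧸ p) := f.prod p.mkQ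
  have h2 : LinearMap.ker f ⊓ p = LinearMap.ker g := by
    rw [LinearMap.ker_prod, Submodule.ker_mkQ]
  rw [h2]
  apply mem_ker_ext
  have h6 : g = (LinearMap.inl K _ _) ∘ₗ f + (LinearMap.inr K _ _) ∘ₗ p.mkQ := by
    ext x <;> simp [g]
  have h5 : p.mkQ.baseChange L w = 0 := by
    refine sub_induction' (P := fun x => p.mkQ.baseChange L x = 0)
      (map_zero _) ?_ ?_ hw
    · intro x y hx hy; rw [map_add, hx, hy, add_zero]
    · intro l a ha
      rw [LinearMap.baseChange_tmul, Submodule.mkQ_apply,
        (Submodule.Quotient.mk_eq_zero _).2 ha, tmul_zero]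
  rw [h6, LinearMap.baseChange_add, LinearMap.baseChange_comp, LinearMap.baseChange_comp,
    LinearMap.add_apply, LinearMap.comp_apply, LinearMap.comp_apply, hf, h5, map_zero,
    map_zero, add_zero]

end alg

variable {K₀ K V : Type*} [Field K₀] [Field K] [Algebra K₀ K] [AddCommGroup V] [Module K V]
  [Module K₀ V] [IsScalarTower K₀ K V]

theorem formMap_tmul (H₀ : Submodule K₀ V) (l : K) (a : H₀) :
    formMap K H₀ (l ⊗ₜ[K₀] a) = l • (a : V) := by
  rw [formMap, LinearMap.liftBaseChange_tmul]
  rfl

/-- Linear combinations over `K` of elements of the form. -/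
theorem mem_span_of_form {H₀ : Submodule K₀ V} (hinj : Function.Injective (formMap K H₀))
    {C : Set V} (hC : ∀ a ∈ C, a ∈ H₀) {c : V} (hc : c ∈ H₀) (h : c ∈ Submodule.span K C) :
    c ∈ Submodule.span K₀ C := by
  let C₀ : Submodule K₀ H₀ := (Submodule.span K₀ C).comap H₀.subtype
  have h1 : ∀ x ∈ Submodule.span K C, ∃ t ∈ C₀.baseChange K, formMap K H₀ t = x := by
    intro x hx
    induction hx using Submodule.span_induction with
    | mem x hx =>
      refine ⟨(1 : K) ⊗ₜ[K₀] (⟨x, hC x hx⟩ : H₀),
        Submodule.tmul_mem_baseChange_of_mem _ (Submodule.subset_span hx), ?_⟩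
      rw [formMap_tmul, one_smul]
    | zero => exact ⟨0, Submodule.zero_mem _, map_zero _⟩
    | add x y _ _ hx hy =>
      obtain ⟨t, ht, rfl⟩ := hx
      obtain ⟨t', ht', rfl⟩ := hy
      exact ⟨t + t', Submodule.add_mem _ ht ht', map_add _ _ _⟩
    | smul a x _ hx =>
      obtain ⟨t, ht, rfl⟩ := hx
      exact ⟨a • t, Submodule.smul_mem _ _ ht, map_smul _ _ _⟩
  obtain ⟨t, ht, h2⟩ := h1 c h
  have h3 : t = (1 : K) ⊗ₜ[K₀] (⟨c, hc⟩ : H₀) := by
    apply hinj
    rw [h2, formMap_tmul, one_smul]
  rw [h3] at ht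
  exact mem_of_ext C₀ ht

/-- **The kernels of operators defined over the form, and the span of a set of elements of the
form.** -/
theorem form_principle {H₀ : Submodule K₀ V} (hinj : Function.Injective (formMap K H₀))
    (G : Submodule K V) (hG : G ≤ Submodule.span K {a | a ∈ H₀ ∧ a ∈ G})
    (S : V →ₗ[K] V) (hS : ∀ a ∈ H₀, S a ∈ H₀) {C : Set V} (hC : ∀ a ∈ C, a ∈ H₀) :
    (∀ c ∈ H₀, c ∈ G → S c = 0 → c ∈ Submodule.span K₀ C) ↔
      (∀ c ∈ G, S c = 0 → c ∈ Submodule.span K C) := by
  constructor
  · intro h c hc hSc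
    let G₀ : Submodule K₀ H₀ := (G.restrictScalars K₀).comap H₀.subtype
    have h1 : ∀ x ∈ Submodule.span K {a | a ∈ H₀ ∧ a ∈ G},
        ∃ t ∈ G₀.baseChange K, formMap K H₀ t = x := by
      intro x hx
      induction hx using Submodule.span_induction with
      | mem x hx =>
        have hx' : (⟨x, hx.1⟩ : H₀) ∈ G₀ := hx.2
        refine ⟨(1 : K) ⊗ₜ[K₀] (⟨x, hx.1⟩ : H₀), Submodule.tmul_mem_baseChange_of_mem _ hx', ?_⟩
        rw [formMap_tmul, one_smul]
      | zero => exact ⟨0, Submodule.zero_mem _, map_zero _⟩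
      | add x y _ _ hx hy =>
        obtain ⟨t, ht, rfl⟩ := hx
        obtain ⟨t', ht', rfl⟩ := hy
        exact ⟨t + t', Submodule.add_mem _ ht ht', map_add _ _ _⟩
      | smul a x _ hx =>
        obtain ⟨t, ht, rfl⟩ := hx
        exact ⟨a • t, Submodule.smul_mem _ _ ht, map_smul _ _ _⟩
    obtain ⟨t, ht, rfl⟩ := h1 c (hG hc)
    let S₀ : H₀ →ₗ[K₀] H₀ := (S.restrictScalars K₀).restrict hS
    have h2 : ∀ t : K ⊗[K₀] H₀, formMap K H₀ (S₀.baseChange K t) = S (formMap K H₀ t) := by
      intro t
      induction t using TensorProduct.induction_on with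
      | zero => rw [map_zero, map_zero, map_zero]
      | add x y hx hy => rw [map_add, map_add, hx, hy, map_add, map_add]
      | tmul l a =>
        rw [LinearMap.baseChange_tmul, formMap_tmul, formMap_tmul, map_smul]
        rfl
    have h3 : S₀.baseChange K t = 0 := by
      apply hinj
      rw [h2, hSc, map_zero]
    have h4 := mem_inf_ext' S₀ G₀ ht h3
    refine sub_induction' (P := fun t => formMap K H₀ t ∈ Submodule.span K C) ?_ ?_ ?_ h4
    · rw [map_zero]; exact Submodule.zero_mem _
    · intro x y hx hy; rw [map_add]; exact Submodule.add_mem _ hx hy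
    · intro l a ha
      rw [formMap_tmul]
      refine Submodule.smul_mem _ _ ?_
      have h5 : S₀ a = 0 := ha.1
      have h6 : S (a : V) = 0 := congrArg Subtype.val h5
      have h7 := h a a.2 ha.2 h6
      have h8 : Submodule.span K₀ C ≤ (Submodule.span K C).restrictScalars K₀ :=
        Submodule.span_le.2 fun x hx => Submodule.subset_span (s := C) hx
      exact h8 h7
  · intro h c hc hcG hSc
    exact mem_span_of_form hinj hC hc (h c hcG hSc)

end Pool.Agent.Q303.CB
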