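import Mathlib
import Pool.Agent.W534.PoleDefs

/-!
# The crystalline Tate conjecture: cohomology with a form over a subfield
-/

set_option autoImplicit false

open CategoryTheory AlgebraicGeometry

universe u v

namespace Pool.Agent.Q303.CB

section

variable {K : Type*} [Field K] {V : Type*} [AddCommGroup V] [Module K V]

/-- The set `H₀` is a form of the vector space `V` over the subfield `K₀` of `K`: the set of the
vectors whose coordinates in some basis of `V` lie in `K₀`. -/
def IsFormOf (K₀ : Subfield K) (H₀ : Set V) : Prop :=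
  ∃ (n : ℕ) (b : Module.Basis (Fin n) K V), H₀ = {v | ∀ i, b.repr v i ∈ K₀}

/-- `c` is a linear combination of elements of `C` with coefficients in `K₀`. -/
def IsCombination (K₀ : Subfield K) (C : Set V) (c : V) : Prop :=
  ∃ (n : ℕ) (x : Fin n → K) (a : Fin n → V), (∀ i, x i ∈ K₀ ∧ a i ∈ C) ∧ c = ∑ i, x i • a i

end

open Pool.Agent.H914 Pool.Agent.H914.VarClass Pool.Agent.H914.VarClass.Obj
  Pool.Agent.H914.WeilCohomology Pool.Agent.W534

variable {k : Type u} [Field k] {𝒱 : VarClass k} {ops : CycleOps 𝒱}

/-- The cohomology groups `H(X)`, with coefficients in `K = W.K`, are the extensions of the groups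
`H₀(X)` over the subfield `K₀` of `K`: `H₀(X)` is a form of `H(X)` and each `H^i(X)` is spanned by
elements of `H₀(X)`; the `H₀(X)` are stable under the Frobenius endomorphisms and contain the
classes of algebraic cycles. In the intended use `H₀(X)` is the crystalline cohomology of `X`, with
coefficients in the fraction field `K₀` of the ring of Witt vectors of the ground field. -/
structure IsForm {W : WeilCohomology.{u, v} ops} {p : ℕ} (Φ : FrobSystem W p) (K₀ : Subfield W.K)
    (H₀ : ∀ X : 𝒱.Obj, Set (W.H X)) : Prop where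
  isFormOf : ∀ X, IsFormOf K₀ (H₀ X)
  spanned : ∀ X i, W.gr X i ≤ Submodule.span W.K {a | a ∈ H₀ X ∧ a ∈ W.gr X i}
  frobenius : ∀ X, ∀ a ∈ H₀ X, W.map (Φ.Fr X) a ∈ H₀ X
  cycles : ∀ (X : 𝒱.Obj) (j : ℕ) (z : X.Cycles), X.IsCyc j z → W.cl X z ∈ H₀ X

/-- The classes of the algebraic cycles of codimension `j`. -/
def cycleClasses (W : WeilCohomology.{u, v} ops) (X : 𝒱.Obj) (j : ℕ) : Set (W.H X) :=
  {a | ∃ z, X.IsCyc j z ∧ W.cl X z = a}

/-- The crystalline Tate conjecture for `X` in codimension `j`, over all finite extensions of the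
ground field, together with the semisimplicity of the eigenvalue `q ^ j`: the classes in
`H₀^(2 j)(X)` which are killed by a power of `Fr - q ^ j`, `Fr` the Frobenius endomorphism relative
to some finite field with `q` elements, are linear combinations with coefficients in `K₀` of classes
of algebraic cycles of codimension `j`. -/
def CrysSemisimpleTateIn {W : WeilCohomology.{u, v} ops} {p : ℕ} (Φ : FrobSystem W p)
    (K₀ : Subfield W.K) (H₀ : ∀ X : 𝒱.Obj, Set (W.H X)) (X : 𝒱.Obj) (j : ℕ) : Prop :=
  ∀ s, 0 < s → ∀ c ∈ H₀ X, c ∈ genTate Φ X s j → IsCombination K₀ (cycleClasses W X j) c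

end Pool.Agent.Q303.CB
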