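import Mathlib
import Pool.Agent.Q303.CB.Form
import Pool.Agent.Q303.CB.FormDefs

/-!
# The Tate conjecture does not depend on the coefficients
-/

set_option autoImplicit false

open CategoryTheory AlgebraicGeometry TensorProduct

universe u v

namespace Pool.Agent.Q303.CB

section alg

variable {K : Type*} [Field K] {V : Type*} [AddCommGroup V] [Module K V] {K₀ : Subfield K}

/-- The subspace of the vectors with coordinates in `K₀`. -/
def formSub {n : ℕ} (K₀ : Subfield K) (b : Module.Basis (Fin n) K V) : Submodule K₀ V where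
  carrier := {v | ∀ i, b.repr v i ∈ K₀}
  add_mem' := by
    intro v w hv hw i
    rw [map_add, Finsupp.add_apply]
    exact K₀.add_mem (hv i) (hw i)
  zero_mem' := by
    intro i
    rw [map_zero]
    exact K₀.zero_mem
  smul_mem' := by
    intro c v hv i
    have h1 : b.repr (c • v) i = (c : K) * b.repr v i := by
      rw [Subfield.smul_def, map_smul, Finsupp.smul_apply, smul_eq_mul]
    rw [h1]
    exact K₀.mul_mem c.2 (hv i)

theorem basis_mem {n : ℕ} (b : Module.Basis (Fin n) K V) (i : Fin n) : b i ∈ formSub K₀ b := by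
  intro j
  rw [b.repr_self, Finsupp.single_apply]
  split_ifs
  · exact K₀.one_mem
  · exact K₀.zero_mem

theorem formSub_injective {n : ℕ} (b : Module.Basis (Fin n) K V) :
    Function.Injective (formMap K (formSub K₀ b)) := by
  have key : ∀ t : K ⊗[K₀] formSub K₀ b, ∃ l : Fin n → K,
      t = ∑ i, l i ⊗ₜ[K₀] (⟨b i, basis_mem b i⟩ : formSub K₀ b) := by
    intro t
    induction t using TensorProduct.induction_on with
    | zero => exact ⟨fun _ => 0, by simp⟩
    | add x y hx hy =>
      obtain ⟨l, rfl⟩ := hx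
      obtain ⟨m, rfl⟩ := hy
      refine ⟨fun i => l i + m i, ?_⟩
      rw [← Finset.sum_add_distrib]
      exact Finset.sum_congr rfl fun i _ => (add_tmul _ _ _).symm
    | tmul l a =>
      refine ⟨fun i => l * b.repr (a : V) i, ?_⟩
      have h1 : a = ∑ i, (⟨b.repr (a : V) i, a.2 i⟩ : K₀) •
          (⟨b i, basis_mem b i⟩ : formSub K₀ b) := by
        apply Subtype.ext
        rw [AddSubmonoidClass.coe_finset_sum]
        conv_lhs => rw [← b.sum_repr (a : V)]
        rfl
      conv_lhs => rw [h1]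
      rw [tmul_sum]
      refine Finset.sum_congr rfl fun i _ => ?_
      rw [← TensorProduct.smul_tmul, Subfield.smul_def, smul_eq_mul, mul_comm]
  intro t t' h
  have h0 : formMap K (formSub K₀ b) (t - t') = 0 := by rw [map_sub, h, sub_self]
  obtain ⟨l, hl⟩ := key (t - t')
  rw [hl, map_sum] at h0
  simp only [formMap_tmul] at h0
  have h1 : ∀ i, l i = 0 := by
    have h2 := Fintype.linearIndependent_iff.1 b.linearIndependent l h0
    exact h2
  have h3 : t - t' = 0 := by
    rw [hl]
    exact Finset.sum_eq_zero fun i _ => by rw [h1 i, zero_tmul]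
  exact sub_eq_zero.1 h3

theorem isCombination_of_mem {C : Set V} {c : V} (h : c ∈ Submodule.span K₀ C) :
    IsCombination K₀ C c := by
  induction h using Submodule.span_induction with
  | mem x hx => exact ⟨1, fun _ => 1, fun _ => x, fun _ => ⟨K₀.one_mem, hx⟩, by simp⟩
  | zero => exact ⟨0, Fin.elim0, Fin.elim0, fun i => i.elim0, by simp⟩
  | add x y _ _ hx hy =>
    obtain ⟨n, l, a, hl, rfl⟩ := hx
    obtain ⟨m, l', a', hl', rfl⟩ := hy
    refine ⟨n + m, Fin.append l l', Fin.append a a', ?_, ?_⟩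
    · intro i
      refine Fin.addCases (fun i => ?_) (fun i => ?_) i
      · simpa using hl i
      · simpa using hl' i
    · rw [Fin.sum_univ_add]
      simp
  | smul t x _ hx =>
    obtain ⟨n, l, a, hl, rfl⟩ := hx
    refine ⟨n, fun i => (t : K) * l i, a, fun i => ⟨K₀.mul_mem t.2 (hl i).1, (hl i).2⟩, ?_⟩
    rw [Subfield.smul_def, Finset.smul_sum]
    exact Finset.sum_congr rfl fun i _ => by rw [mul_smul]

end alg

open Pool.Agent.H914 Pool.Agent.H914.VarClass Pool.Agent.H914.VarClass.Obj
  Pool.Agent.H914.WeilCohomology Pool.Agent.W534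

variable {k : Type u} [Field k] {𝒱 : VarClass k} {ops : CycleOps 𝒱}
  {W : WeilCohomology.{u, v} ops} {p : ℕ} {Φ : FrobSystem W p} {K₀ : Subfield W.K}
  {H₀ : ∀ X : 𝒱.Obj, Set (W.H X)}

theorem spanCycles_eq (X : 𝒱.Obj) (j : ℕ) :
    spanCycles W X j = Submodule.span W.K (cycleClasses W X j) := by
  rw [spanCycles]
  congr 1
  ext a
  constructor
  · rintro ⟨q, hq, z, hz, rfl⟩
    obtain rfl : q = j := by exact_mod_cast hq
    exact ⟨z, hz, rfl⟩
  · rintro ⟨z, hz, rfl⟩
    exact ⟨j, rfl, z, hz, rfl⟩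

/-- The Tate conjecture with semisimplicity over `K` implies the one over `K₀`. -/
theorem crysSemisimple_of (h : IsForm Φ K₀ H₀) {X : 𝒱.Obj} {j : ℕ}
    (h1 : SemisimpleTateIn Φ X j) : CrysSemisimpleTateIn Φ K₀ H₀ X j := by
  intro s hs c hcH hc
  obtain ⟨n, b, hb⟩ := h.isFormOf X
  have h2 : c ∈ spanCycles W X j := h1 s hs hc
  rw [spanCycles_eq] at h2
  apply isCombination_of_mem
  refine mem_span_of_form (H₀ := formSub K₀ b) (formSub_injective b) ?_ ?_ h2
  · rintro a ⟨z, hz, rfl⟩
    have h3 := h.cycles X j z hz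
    rw [hb] at h3
    exact h3
  · rw [hb] at hcH
    exact hcH

end Pool.Agent.Q303.CB
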