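import Mathlib
import Pool.Agent.Q303.CB.FormMain
import Pool.Agent.Y103.Sq.Final

/-!
# The crystalline Tate conjecture for products of varieties of K3 type
-/

set_option autoImplicit false

open CategoryTheory AlgebraicGeometry NumberField

universe u v

namespace Pool.Agent.Q303.CB

open Pool.Agent.H914 Pool.Agent.H914.VarClass Pool.Agent.H914.VarClass.Obj
  Pool.Agent.H914.WeilCohomology Pool.Agent.W534 Pool.Agent.W517.K3 Pool.Agent.Y138.KC
  Pool.Agent.TH121.KT Pool.Agent.TH132.A Pool.Agent.Y103.Hk Pool.Agent.Y103.Sh Pool.Agent.Y103.Sq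

/-- The result over an algebraically closed coefficient field. -/
theorem kthree {k : Type u} [Field k] {𝒱 : VarClass k} {ops : CycleOps 𝒱}
    (W : WeilCohomology.{u, v} ops) [IsAlgClosed W.K] (p : ℕ) [Fact p.Prime]
    (Φ : FrobSystem W p) (ι : AlgebraicClosure ℚ →+* PadicAlgCl p)
    (r : ℕ) (X : Fin r → 𝒱.Obj) (E : Fin r → Type) [∀ i, Field (E i)] [∀ i, NumberField (E i)]
    [∀ i, IsCMField (E i)] (e : Fin r → ℕ) (α : ∀ i, E i)
    (hα : ∀ i, IsFreeNumber ι (α i)) (hX : ∀ i, IsSpannedByNumber Φ (X i) (e i) (α i))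
    (hX2 : ∀ i, (∀ σ, OnLine W.K (letters Φ (X i) (e i) (α i) σ)) ∨ TateSquare Φ (X i))
    (n : Fin r → ℕ) (Z : 𝒱.Obj) (hZ : IsProductOfCopies W X n Z)
    (𝓛 : Set (IntermediateField ℚ (AlgebraicClosure ℚ)))
    (L₀ : Fin r → IntermediateField ℚ (AlgebraicClosure ℚ))
    (hL₀ : ∀ i, IsStable (L₀ i) ∧ SmallIntersection (E i) (L₀ i) (n i))
    (h𝓛 : ∀ i, ∀ L ∈ 𝓛, IsAllowed (E i) (L₀ i) L)
    (hE : ∀ i j, i < j → IsAllowed (E i) (L₀ i) (galoisClosure (E j))) :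
    (∀ c, SemisimpleTateIn Φ Z c) ∧
    ∀ U : 𝒱.Obj, HasSlopes Φ ι 𝓛 U → ∀ c,
      (TateIn Φ (Z.prod U) c ↔ ∀ i ≤ c, HasCycle W Z i → TateIn Φ U (c - i)) ∧
      (SemisimpleTateIn Φ (Z.prod U) c ↔
        ∀ i ≤ c, HasCycle W Z i → SemisimpleTateIn Φ U (c - i)) := by
  have hp := (Fact.out : p.Prime).one_lt
  have hT : ∀ i, HasWeilNumber Φ (X i) (e i) (α i) := fun i => weilNumber_of (hα i) (hX i) (hX2 i)
  have H : FamCond ι α n 𝓛 (fun i => galoisClosure (E i)) L₀ := famCond_of hα hL₀ h𝓛 hE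
  have hTT : TateTimesP Φ (IsSlopeProduct ι 𝓛) Z := tateTimesP_fam hT hZ H
  have hPpow : ∀ (ν : W.K) (m : ℕ), 0 < m → IsSlopeProduct ι 𝓛 ν → IsSlopeProduct ι 𝓛 (ν ^ m) :=
    fun ν m _ h => inM_pow ν m h
  refine ⟨fun c => Pool.Agent.Y138.TU.semisimple_of_times hp hTT (inM_one _) c, ?_⟩
  intro U hU c
  simp only [hasCycle_iff]
  have key : ∀ b, Pool.Agent.Y138.TU.TateK Φ (Z.prod U) b c ↔
      ∀ i ≤ c, (∃ x, Z.IsCyc i x ∧ ¬ HomEq W x 0) → Pool.Agent.Y138.TU.TateK Φ U b (c - i) := fun b =>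
    Pool.Agent.Y138.TU.tateK_prod_iff hp hTT (inM_one _) hPpow hU
  refine ⟨?_, ?_⟩
  · rw [Pool.Agent.Y138.TU.tateIn_iff, key 1]
    simp only [Pool.Agent.Y138.TU.tateIn_iff]
  · simp only [Pool.Agent.Y138.TU.semisimple_iff, key]
    constructor
    · intro h i hi hx a
      exact h a i hi hx
    · intro h a i hi hx
      exact h i hi hx a

end Pool.Agent.Q303.CB
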