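import Mathlib
import Pool.Agent.Q303.CB.Base
import Pool.Agent.Q303.CB.RankDefs
import Pool.Agent.Q64.CT.Almost
import Pool.Agent.Y1.CT.CodimNum

/-!
# The crystalline Tate conjecture for products with almost all abelian varieties
-/

set_option autoImplicit false
set_option linter.unusedSectionVars false

open CategoryTheory AlgebraicGeometry

universe u v w

namespace Pool.Agent.Q303.CB

open Module Polynomial Pool.Agent.H914 Pool.Agent.H914.VarClass Pool.Agent.H914.VarClass.Obj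
  Pool.Agent.W492.BB Pool.Agent.W550.Corr Pool.Agent.W484.CK Pool.Agent.Y1.CT
  Pool.Agent.W484.CH Pool.Agent.W484.TB Pool.Agent.W484.HS
  Pool.Agent.W521.Frob Pool.Agent.W521.Count Pool.Agent.W521.Bad Pool.Agent.W521.Descent
  Pool.Agent.W521.Density

section

variable {k : Type u} [Field k] {𝒱 : VarClass k} {C : TheoryData.{u, v, 0} 𝒱 ℚ} {K : Type w}
  [Field K] [CharZero K] {H : WeilTheoryData.{u, v, w} C K} [hC : IsChow C] [hH : IsWeil H]
  {A Z X Y : 𝒱.Obj}

variable {I : Type} [Finite I] (g : I → ℕ) (E : IntermediateField ℚ ℂ) [FiniteDimensional ℚ E]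
  {q : ℕ} (hq : 1 < q) (r : ℕ) (hr : ∀ i, r < g i)
  (x : (Σ i, Fin (g i)) → ℤ) (hx : GoodU (splitPrimes E) g q x)

include hq hr hx in
/-- **The Kunneth formula for generalized eigenvectors of Frobenius.** -/
theorem kunneth_rank [IsAlgClosed K] (hS : W484.CH.IsStandard H) {s : ℕ} (hs : 0 < s) {πA : A ⟶ A}
    {πZ : Z ⟶ Z} (hA : W484.CH.IsAbelian H πA q s (fun i => weil q (polys g x i)))
    (hZ : EigenRankLE E r (frob H πZ)) :
    ∃ (J : Type) (_ : Fintype J) (deg : J → ℕ) (D E : J → C.A A), Nonempty J ∧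
      IsDual A Z deg D E ∧
      (∀ j, D j ∈ DivProd C A (deg j)) ∧
      ∀ (i : ℤ) (m : ℕ) (w : H.A (A.prod Z)),
        op (frob H (prodMap πA πZ)) (((q ^ s : ℕ) : K) ^ i) m w = 0 →
          H.act (H.cl (proj Z D E)) w = w := by
  obtain ⟨n, b, α, hb, hα, hgood⟩ := W484.CH.exists_good_basis g E hq r hr x hx hS hs hA
  have hQ1 : 1 < q ^ s := Nat.one_lt_pow hs.ne' hq
  have hX1 : (Polynomial.X - 1 : ℚ[X]) ≠ 0 := by
    have := Polynomial.X_sub_C_ne_zero (1 : ℚ)
    rwa [map_one] at this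
  have h1 : ∀ t (c : ℤ), α t = ((q ^ s : ℕ) : K) ^ c →
      ∃ l : ℕ, α t = ((q ^ s : ℕ) : K) ^ l ∧ b t ∈ NK H A l := by
    intro t c hc
    exact hgood _ hX1 (rank_one E r) 1 (by rw [map_sub, aeval_X, map_one, sub_self]) t c
      (by rw [mul_one]; exact hc)
  obtain ⟨J, hJ, deg, D, E', hdual, hD, hE, hN⟩ :=
    exists_dual2 hS hA.frobenius hQ1 b α hb h1 Z
  have hne : Nonempty J := by
    by_contra hne
    rw [not_nonempty_iff] at hne
    have h2 := hN 0 (one_mem_NK (H := H) (A := A))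
    have h3 : {c : H.A A | ∃ j, deg j = 0 ∧ c = H.cl (D j)} = ∅ := by
      ext c
      constructor
      · rintro ⟨j, -⟩
        exact hne.elim j
      · intro h
        exact h.elim
    rw [h3, Submodule.span_empty, Submodule.mem_bot] at h2
    have := hS.nontrivial A
    exact one_ne_zero h2
  refine ⟨J, hJ, deg, D, E', hne, hdual, hD, fun i m w hw => ?_⟩
  obtain ⟨χ, hχ, hχe, hrank⟩ := hZ
  have hmix : w ∈ mix H A Z := by
    refine mem_mix (πZ := πZ) hS b α hb (Q := q ^ s) (by omega) i ?_ m _ hw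
    intro t ρ v hv0 hv hc
    obtain ⟨l, -, hl⟩ := hgood χ hχ hrank ρ (hχe ρ v hv0 hv) t i hc
    exact ⟨l, hl⟩
  exact act_proj_mix hdual hN hmix

end

section

variable {I : Type} [Finite I] (g : I → ℕ) (E : IntermediateField ℚ ℂ) [FiniteDimensional ℚ E]
  {q : ℕ} (hq : 1 < q) (r : ℕ) (hr : ∀ i, r < g i)
  (x : (Σ i, Fin (g i)) → ℤ) (hx : GoodU (splitPrimes E) g q x)

include hq hr hx

theorem tateForRank (k : Type) [Field k] (𝒱 : VarClass k) (C : TheoryData.{0, 0, 0} 𝒱 ℚ)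
    [IsChow C] (F : Type) [Field F] [IsAlgClosed F] [CharZero F]
    (H : WeilTheoryData.{0, 0, 0} C F) [IsWeil H] (s : ℕ) (A Z : 𝒱.Obj) (πA : A ⟶ A)
    (πZ : Z ⟶ Z) (hsit : IsRankPair H E q r s (fun i => weil q (polys g x i)) πA πZ) (c : ℕ) :
    (TateIn H (prodMap πA πZ) (q ^ s) c ↔ ∀ i ≤ A.dim, i ≤ c → TateIn H πZ (q ^ s) (c - i)) ∧
      (StrongTateIn H (prodMap πA πZ) (q ^ s) c ↔
        ∀ i ≤ A.dim, i ≤ c → StrongTateIn H πZ (q ^ s) (c - i)) := by
  obtain ⟨J, hJ, deg, D, E', hne, hdual, hD, hK⟩ := kunneth_rank g E hq r hr x hx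
    (W484.CK.isStandard_bridge hsit.standard) hsit.pos (W484.CK.isAbelian_bridge hsit.abelian)
    (πZ := πZ) hsit.rank
  have hQ : q ^ s ≠ 0 := pow_ne_zero _ (by omega)
  have hπA := W484.CK.isFrobenius_bridge hsit.abelian.frobenius
  have hS := W484.CK.isStandard_bridge hsit.standard
  exact ⟨tateIn_prod_iff hS hdual hQ hπA hK hD c, strongTateIn_prod_iff hS hdual hQ hπA hK hD c⟩

theorem crysTateForRank : CrysTateForRank E r q (fun i => weil q (polys g x i)) := by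
  intro k _ 𝒱 C _ K₀ _ H _ Ω _ _ _ _ s A Z πA πZ hp c
  obtain ⟨h1, h2⟩ := tateForRank g E hq r hr x hx k 𝒱 C Ω (ext H Ω) s A Z πA πZ hp c
  simp only [tateIn_ext] at h1
  simp only [strongTateIn_ext] at h2
  exact ⟨h1, h2⟩

end

end Pool.Agent.Q303.CB
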