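import Mathlib
import Pool.Agent.Q303.CB.Base
import Pool.Agent.Q303.CB.SlopeDefs
import Pool.Agent.Q70.SQ.Times
import Pool.Agent.Q70.SQ.Ord

/-!
# The crystalline Tate conjecture for products with varieties of small slope deviation
-/

set_option autoImplicit false

open CategoryTheory AlgebraicGeometry

namespace Pool.Agent.Q303.CB

open Polynomial Pool.Agent.H914 Pool.Agent.H914.VarClass Pool.Agent.H914.VarClass.Obj
  Pool.Agent.W492.BB Pool.Agent.W484.CK Pool.Agent.Y1.CT Pool.Agent.Q70.SQ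

theorem crysTateFor {P : ℚ[X] → Prop} {q : ℕ} {I : Type} {f : I → ℤ[X]} (h : TateFor P q f) :
    CrysTateFor P q f := by
  intro k _ 𝒱 C _ K₀ _ H _ Ω _ _ _ _ A Z πA πZ hp c
  obtain ⟨h1, h2⟩ := h k 𝒱 C Ω (ext H Ω) A Z πA πZ hp c
  simp only [tateIn_ext] at h1
  simp only [strongTateIn_ext] at h2
  exact ⟨h1, h2⟩

end Pool.Agent.Q303.CB
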