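import Mathlib
import Pool.Agent.Q303.CB.Ext
import Pool.Agent.Y1.CT.CodimDefs

/-!
# The crystalline Tate conjecture for products with abelian varieties: definitions
-/

set_option autoImplicit false

open CategoryTheory AlgebraicGeometry

namespace Pool.Agent.Q303.CB

open Polynomial Pool.Agent.H914 Pool.Agent.H914.VarClass Pool.Agent.H914.VarClass.Obj
  Pool.Agent.W492.BB Pool.Agent.W484.CK Pool.Agent.Y1.CT

/-- `CrysTateTimes K q f`: the following holds for the Chow groups `C` with rational coefficients of
all classes `𝒱` of varieties over fields `k` (finite, in the intended use), every Weil cohomology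
theory `H` with coefficients in **any** field `K₀` of characteristic zero (crystalline cohomology,
where `K₀` is the fraction field of the ring of Witt vectors of `k`), all algebraically closed fields
`Ω` containing `K₀`, all `A`, `Z` which are as in `IsPair` with respect to the cohomology theory
`ext H Ω` with the groups `Ω ⊗ H(X)`, and all `c`: the Tate conjecture, for the theory `H` and over
the field `K₀`, holds for `A × Z` in codimension `c` if and only if it holds for `Z` in all
codimensions `c - i` with `0 ≤ i ≤ dim A`; the same for the Tate conjecture together with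
semisimplicity. -/
def CrysTateTimes {I : Type} (K : I → Type) [∀ i, Field (K i)] (q : ℕ) (f : I → ℤ[X]) : Prop :=
  ∀ (k : Type) [Field k] (𝒱 : VarClass k) (C : TheoryData.{0, 0, 0} 𝒱 ℚ) [IsChow C]
    (K₀ : Type) [Field K₀] (H : WeilTheoryData.{0, 0, 0} C K₀) [IsWeil H] (Ω : Type) [Field Ω]
    [IsAlgClosed Ω] [CharZero Ω] [Algebra K₀ Ω] (s : ℕ) (A Z : 𝒱.Obj) (πA : A ⟶ A)
    (πZ : Z ⟶ Z), IsPair (ext H Ω) K q s f πA πZ → ∀ c : ℕ,
      (TateIn H (prodMap πA πZ) (q ^ s) c ↔ ∀ i ≤ A.dim, i ≤ c → TateIn H πZ (q ^ s) (c - i)) ∧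
      (StrongTateIn H (prodMap πA πZ) (q ^ s) c ↔
        ∀ i ≤ A.dim, i ≤ c → StrongTateIn H πZ (q ^ s) (c - i))

end Pool.Agent.Q303.CB
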